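import Mathlib
import Pool.Agent.R845.E3.Trda
import Pool.Agent.R845.C8.Ani

/-! # Project Eck: cubic forms `y_b u_a ^ 2 + (terms without u_a)` -/

set_option autoImplicit false

namespace Pool.Agent.R845.Eck

open MvPolynomial Pool.Agent.R845.E3 Pool.Agent.R845.C8

noncomputable section

/-- the special cubic form `∑ y_{π i} u_i ^ 2 + y_0 y_1 y_2` -/
def spP (π : Equiv.Perm (Fin (2 + 1))) (K : Type) [Field K] :
    MvPolynomial (Fin (2 + 1 + (2 + 1))) K :=
  ∑ i : Fin (2 + 1), X (Fin.natAdd (2 + 1) (π i)) * X (Fin.castAdd (2 + 1) i) ^ 2 +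
    X (Fin.natAdd (2 + 1) 0) * X (Fin.natAdd (2 + 1) 1) * X (Fin.natAdd (2 + 1) 2)

theorem aniP (π : Equiv.Perm (Fin (2 + 1))) (K : Type) [Field K] :
    ¬ Iso (k := 2) (m := 2) (spP π K) := by
  classical
  rintro ⟨c, l, ⟨hl, hz⟩ | ⟨hc, hz⟩⟩
  · unfold spP at hz
    simp only [map_add, map_sum, map_mul, map_pow, aeval_X, Fin.append_left, Fin.append_right] at hz
    have h1 : l * (∑ i : Fin 3, yv K 2 i * c (π.symm i) ^ 2 + yv K 2 1 * yv K 2 2 * l ^ 2) = 0 := by
      rw [← hz, mul_add, Finset.mul_sum]
      congr 1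
      · rw [← Equiv.sum_comp π]
        refine Finset.sum_congr rfl fun i _ => ?_
        rw [Equiv.symm_apply_apply]
        ring
      · have : yv K 2 0 = 1 := rfl
        rw [this]
        ring
    have h2 := (mul_eq_zero.1 h1).resolve_left hl
    exact hl (no_zero8 K _ l h2).2
  · apply hc
    have h0 : ∀ j : Fin (2 + 1), aeval (Fin.append c (0 : Fin (2 + 1) → MvPolynomial (Fin 2) K))
        (pderiv (Fin.natAdd (2 + 1) j) (spP π K)) = c (π.symm j) ^ 2 := by
      intro j
      unfold spP
      rw [map_add, map_sum, map_add, map_sum]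
      have e1 : aeval (Fin.append c (0 : Fin (2 + 1) → MvPolynomial (Fin 2) K))
          (pderiv (Fin.natAdd (2 + 1) j) (X (Fin.natAdd (2 + 1) (0 : Fin (2 + 1))) *
            X (Fin.natAdd (2 + 1) (1 : Fin (2 + 1))) * X (Fin.natAdd (2 + 1) (2 : Fin (2 + 1))) :
              MvPolynomial (Fin (2 + 1 + (2 + 1))) K)) = 0 := by
        rw [Derivation.leibniz, Derivation.leibniz]
        simp only [map_add, smul_eq_mul, map_mul, aeval_X, Fin.append_right, Pi.zero_apply,
          zero_mul, mul_zero, add_zero]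
      rw [e1, add_zero, Finset.sum_eq_single (π.symm j)]
      · rw [Derivation.leibniz, Derivation.leibniz_pow, pderiv_X, pderiv_X]
        have hne : Fin.castAdd (2 + 1) (π.symm j) ≠ Fin.natAdd (2 + 1) j := by
          intro h2
          have := congrArg Fin.val h2
          simp only [Fin.val_castAdd, Fin.val_natAdd] at this
          omega
        rw [Equiv.apply_symm_apply, Pi.single_eq_of_ne hne, Pi.single_eq_same]
        simp
      · intro i _ hij
        rw [Derivation.leibniz, Derivation.leibniz_pow, pderiv_X, pderiv_X]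
        have hne : Fin.castAdd (2 + 1) i ≠ Fin.natAdd (2 + 1) j := by
          intro h2
          have := congrArg Fin.val h2
          simp only [Fin.val_castAdd, Fin.val_natAdd] at this
          omega
        rw [Pi.single_eq_of_ne hne, Pi.single_eq_of_ne]
        · simp
        · intro h2
          apply hij
          rw [Equiv.eq_symm_apply]
          have := congrArg Fin.val h2
          simp only [Fin.val_natAdd] at this
          apply Fin.ext
          omega
      · intro h
        exact absurd (Finset.mem_univ _) h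
    have h1 : ∑ i : Fin 3, yv K 2 i * c (π.symm i) ^ 2 +
        yv K 2 1 * yv K 2 2 * (0 : MvPolynomial (Fin 2) K) ^ 2 = 0 := by
      rw [zero_pow two_ne_zero, mul_zero, add_zero, ← hz]
      refine Finset.sum_congr rfl fun i _ => ?_
      rw [h0]
    funext i
    have h2 := (no_zero8 K (fun i => c (π.symm i)) 0 h1).1 (π i)
    simp only [Equiv.symm_apply_apply] at h2
    exact h2

theorem spP_homog (π : Equiv.Perm (Fin (2 + 1))) (K : Type) [Field K] :
    (spP π K).IsHomogeneous 3 := by
  unfold spP
  apply IsHomogeneous.add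
  · apply IsHomogeneous.sum
    intro i _
    exact (isHomogeneous_X K _).mul ((isHomogeneous_X K _).pow 2)
  · exact ((isHomogeneous_X K _).mul (isHomogeneous_X K _)).mul (isHomogeneous_X K _)

theorem spP_vanW (π : Equiv.Perm (Fin (2 + 1))) (K : Type) [Field K] :
    VanW (k := 2) (m := 2) (spP π K) := by
  unfold VanW spP
  simp only [map_add, map_sum, map_mul, map_pow, aeval_X, Fin.append_right, Pi.zero_apply,
    zero_mul, Finset.sum_const_zero, add_zero]

theorem map_spP (π : Equiv.Perm (Fin (2 + 1))) (K L : Type) [Field K] [Field L] (f : K →+* L) :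
    map f (spP π K) = spP π L := by
  unfold spP
  simp [map_sum]

/-- killing a variable -/
def kl {σ R : Type} [CommRing R] [DecidableEq σ] (a : σ) : σ → MvPolynomial σ R :=
  Function.update X a 0

theorem coeff_kl {σ R : Type} [CommRing R] [DecidableEq σ] [Fintype σ] (a : σ)
    (P : MvPolynomial σ R)
    (γ : σ →₀ ℕ) (hγ : γ a ≠ 0) : coeff γ (aeval (kl (R := R) a) P) = 0 := by
  induction P using MvPolynomial.induction_on' with
  | monomial δ c =>
    rw [aeval_monomial, Finsupp.prod_fintype _ _ (fun i => pow_zero _), algebraMap_eq]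
    by_cases hδ : δ a = 0
    · have h1 : ∏ i, (kl (R := R) a i) ^ δ i = ∏ i, (X i : MvPolynomial σ R) ^ δ i := by
        refine Finset.prod_congr rfl fun i _ => ?_
        by_cases hi : i = a
        · rw [hi, hδ, pow_zero, pow_zero]
        · unfold kl
          rw [Function.update_of_ne hi]
      rw [h1]
      have h2 : C c * ∏ i, (X i : MvPolynomial σ R) ^ δ i = monomial δ c := by
        rw [monomial_eq, Finsupp.prod_fintype _ _ (fun i => pow_zero _)]
      rw [h2, coeff_monomial, if_neg]
      rintro rfl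
      exact hγ hδ
    · have h1 : ∏ i, (kl (R := R) a i) ^ δ i = 0 := by
        refine Finset.prod_eq_zero (Finset.mem_univ a) ?_
        unfold kl
        rw [Function.update_self, zero_pow hδ]
      rw [h1, mul_zero, coeff_zero]
  | add p q hp hq => rw [map_add, coeff_add, hp, hq, add_zero]

/-- the exponent of `y_b u_a ^ 2` -/
def e2 (a b : Fin (2 + 1)) : Fin (2 + 1 + (2 + 1)) →₀ ℕ :=
  Finsupp.single (Fin.natAdd (2 + 1) b) 1 + Finsupp.single (Fin.castAdd (2 + 1) a) 2

/-- the exponents of the free coefficients -/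
def pr (a : Fin (2 + 1)) (γ : Fin (2 + 1 + (2 + 1)) →₀ ℕ) : Prop :=
  γ.degree = 3 ∧ γ (Fin.castAdd (2 + 1) a) = 0 ∧ ∃ j : Fin (2 + 1), γ (Fin.natAdd (2 + 1) j) ≠ 0

/-- the other coefficients -/
theorem coeff_other {K : Type} [Field K] (a b : Fin (2 + 1))
    {H H2 : MvPolynomial (Fin (2 + 1 + (2 + 1))) K} (hH : H.IsHomogeneous 3)
    (hW : VanW (k := 2) (m := 2) H)
    (he : H = X (Fin.natAdd (2 + 1) b) * X (Fin.castAdd (2 + 1) a) ^ 2 + H2)
    (h2 : aeval (kl (R := K) (Fin.castAdd (2 + 1) a)) H2 = H2)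
    (γ : Fin (2 + 1 + (2 + 1)) →₀ ℕ) (hγ : ¬ pr a γ) :
    coeff γ H = if γ = e2 a b then 1 else 0 := by
  classical
  have hne : ∀ i : Fin (2 + 1), ∀ j : Fin (2 + 1), Fin.castAdd (2 + 1) i ≠ Fin.natAdd (2 + 1) j := by
    intro i j h2
    have := congrArg Fin.val h2
    simp only [Fin.val_castAdd, Fin.val_natAdd] at this
    omega
  have e2d : (e2 a b).degree = 3 := by
    unfold e2
    rw [map_add, Finsupp.degree_single, Finsupp.degree_single]
  have e2n : e2 a b (Fin.natAdd (2 + 1) b) = 1 := by
    unfold e2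
    rw [Finsupp.add_apply, Finsupp.single_eq_same, Finsupp.single_eq_of_ne (hne a b).symm,
      add_zero]
  have e2a : e2 a b (Fin.castAdd (2 + 1) a) = 2 := by
    unfold e2
    rw [Finsupp.add_apply, Finsupp.single_eq_same, Finsupp.single_eq_of_ne (hne a b), zero_add]
  by_cases hd : γ.degree = 3
  · by_cases ha : γ (Fin.castAdd (2 + 1) a) = 0
    · have hn : ∀ j : Fin (2 + 1), γ (Fin.natAdd (2 + 1) j) = 0 := by
        intro j
        by_contra hj
        exact hγ ⟨hd, ha, j, hj⟩
      rw [vanW_coeff hW hn, if_neg]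
      rintro rfl
      rw [hn b] at e2n
      exact zero_ne_one e2n
    · rw [he, coeff_add, ← h2, coeff_kl _ _ _ ha, add_zero]
      have h3 : (X (Fin.natAdd (2 + 1) b) * X (Fin.castAdd (2 + 1) a) ^ 2 :
          MvPolynomial (Fin (2 + 1 + (2 + 1))) K) = monomial (e2 a b) 1 := by
        unfold e2
        rw [X_pow_eq_monomial, X, monomial_mul, one_mul]
      rw [h3, coeff_monomial]
      simp only [eq_comm]
  · rw [hH.coeff_eq_zero hd, if_neg]
    rintro rfl
    exact hd e2d

end

end Pool.Agent.R845.Eck
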