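import Mathlib
import Pool.Agent.R845.C8.Uniq
import Pool.Agent.R845.Eck.Ani

/-! # Project Eck: graphs in generic cubic fourfolds -/

set_option autoImplicit false

namespace Pool.Agent.R845.Eck

open Set MvPolynomial Pool.Agent.R845.E3 Pool.Agent.R845.E3.Trd Pool.Agent.R845.C8

noncomputable section

/-- sorted triples in `B` -/
def srt (B : Finset (Fin 6)) : Finset (Fin 6 × Fin 6 × Fin 6) :=
  Finset.univ.filter fun t => t.1 ≤ t.2.1 ∧ t.2.1 ≤ t.2.2 ∧ t.1 ∈ B ∧ t.2.1 ∈ B ∧ t.2.2 ∈ B

theorem ext_inj' {B : Finset (Fin 6)} {s t : Fin 6 × Fin 6 × Fin 6} (hs : s ∈ srt B)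
    (ht : t ∈ srt B) (h : C8.ext s = C8.ext t) : s = t := by
  obtain ⟨a, b, c⟩ := s
  obtain ⟨a', b', c'⟩ := t
  simp only [srt, Finset.mem_filter, Finset.mem_univ, true_and] at hs ht
  have h1 := congrArg Finsupp.toMultiset h
  simp only [C8.ext, map_add, Finsupp.toMultiset_single, one_smul] at h1
  have h2 : ([a, b, c] : Multiset (Fin 6)) = ([a', b', c'] : List (Fin 6)) := by
    have e : ∀ x y z : Fin 6, (([x, y, z] : List (Fin 6)) : Multiset (Fin 6)) = {x} + {y} + {z} := by
      intro x y z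
      rfl
    rw [e, e]
    exact h1
  have h3 : ([a, b, c] : List (Fin 6)).Perm [a', b', c'] := Multiset.coe_eq_coe.1 h2
  have hs' : ([a, b, c] : List (Fin 6)).Pairwise (· ≤ ·) := by
    simp only [List.pairwise_cons, List.mem_cons, List.not_mem_nil, or_false]
    refine ⟨?_, ?_, ?_, ?_⟩
    · rintro x (rfl | rfl)
      · exact hs.1
      · exact hs.1.trans hs.2.1
    · rintro x rfl
      exact hs.2.1
    · simp
    · exact List.Pairwise.nil
  have ht' : ([a', b', c'] : List (Fin 6)).Pairwise (· ≤ ·) := by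
    simp only [List.pairwise_cons, List.mem_cons, List.not_mem_nil, or_false]
    refine ⟨?_, ?_, ?_, ?_⟩
    · rintro x (rfl | rfl)
      · exact ht.1
      · exact ht.1.trans ht.2.1
    · rintro x rfl
      exact ht.2.1
    · simp
    · exact List.Pairwise.nil
  have h4 : ([a, b, c] : List (Fin 6)) = [a', b', c'] := by
    refine List.Perm.eq_of_pairwise (le := (· ≤ ·)) ?_ hs' ht' h3
    intro x y _ _ h5 h6
    exact le_antisymm h5 h6
  simp only [List.cons.injEq, and_true] at h4
  rw [h4.1, h4.2.1, h4.2.2]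

theorem ext_support' {B : Finset (Fin 6)} {t : Fin 6 × Fin 6 × Fin 6} (ht : t ∈ srt B) :
    ∀ i, C8.ext t i ≠ 0 → i ∈ B := by
  classical
  obtain ⟨a, b, c⟩ := t
  simp only [srt, Finset.mem_filter, Finset.mem_univ, true_and] at ht
  intro i hi
  by_contra hiB
  apply hi
  have h1 : i ≠ a := by rintro rfl; exact hiB ht.2.2.1
  have h2 : i ≠ b := by rintro rfl; exact hiB ht.2.2.2.1
  have h3 : i ≠ c := by rintro rfl; exact hiB ht.2.2.2.2
  unfold C8.ext
  simp only [Finsupp.add_apply]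
  rw [Finsupp.single_eq_of_ne h1, Finsupp.single_eq_of_ne h2, Finsupp.single_eq_of_ne h3]
  rfl

/-- A cubic form with independent coefficients at the exponents in `p` and rational coefficients at
the other exponents does not vanish on a graph over the coordinates in `B` with parameters in `T`,
if `T` is small -/
theorem no_graph_gen {F : MvPolynomial (Fin 6) ℂ} (p : (Fin 6 →₀ ℕ) → Prop)
    (hfin : Finite {γ : Fin 6 →₀ ℕ // p γ})
    (hq : ∀ γ, ¬ p γ → ∃ c : ℚ, coeff γ F = algebraMap ℚ ℂ c)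
    (hind : AlgebraicIndependent ℚ (fun γ : {γ : Fin 6 →₀ ℕ // p γ} => coeff γ.1 F))
    (B : Finset (Fin 6)) (mm : Fin 6 → Fin 6 → ℂ)
    (h1 : ∀ i ∈ B, ∀ b, mm i b = if b = i then 1 else 0) (T : Finset (Fin 6 × Fin 6))
    (hT : ∀ i b, (i, b) ∉ T → ∃ c : ℚ, mm i b = algebraMap ℚ ℂ c)
    (S : Finset (Fin 6 × Fin 6 × Fin 6)) (hS : ∀ t ∈ S, t ∈ srt B ∧ p (C8.ext t))
    (hcount : T.card < S.card) (h0 : aeval (gr mm) F = 0) : False := by
  classical
  -- the two parts of `F`
  set F1 : MvPolynomial (Fin 6) ℂ :=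
    ∑ γ ∈ F.support with γ.support ⊆ B, monomial γ (coeff γ F) with hF1
  set F2 : MvPolynomial (Fin 6) ℂ :=
    ∑ γ ∈ F.support with ¬ γ.support ⊆ B, monomial γ (coeff γ F) with hF2
  have hF12 : F1 + F2 = F := by
    rw [hF1, hF2, Finset.sum_filter_add_sum_filter_not, support_sum_monomial_coeff]
  have hc1 : ∀ β : Fin 6 →₀ ℕ, β.support ⊆ B → coeff β F = coeff β F1 := by
    intro β hβ
    rw [hF1, coeff_sum]
    simp only [coeff_monomial]
    rw [Finset.sum_ite_eq' (Finset.filter (fun γ => γ.support ⊆ B) F.support)]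
    split_ifs with h
    · rfl
    · rw [Finset.mem_filter, not_and] at h
      by_contra hne
      exact h (mem_support_iff.2 hne) hβ
  have hc2 : ∀ β : Fin 6 →₀ ℕ, coeff β F2 = if β.support ⊆ B then 0 else coeff β F := by
    intro β
    rw [hF2, coeff_sum]
    simp only [coeff_monomial]
    rw [Finset.sum_ite_eq' (Finset.filter (fun γ => ¬ γ.support ⊆ B) F.support)]
    by_cases hβ : β.support ⊆ B
    · rw [if_neg, if_pos hβ]
      rw [Finset.mem_filter, not_and]
      exact fun _ h => h hβ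
    · rw [if_neg hβ]
      split_ifs with h
      · rfl
      · rw [Finset.mem_filter, not_and] at h
        by_contra hne
        exact h (mem_support_iff.2 (Ne.symm hne)) hβ
  have hg1 : aeval (gr mm) F1 = F1 := by
    rw [hF1, map_sum]
    refine Finset.sum_congr rfl fun γ hγ => ?_
    rw [Finset.mem_filter] at hγ
    rw [aeval_monomial, monomial_eq, algebraMap_eq]
    congr 1
    refine Finsupp.prod_congr fun i hi => ?_
    congr 1
    have hiB : i ∈ B := hγ.2 hi
    unfold gr
    rw [Finset.sum_eq_single i]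
    · rw [h1 i hiB, if_pos rfl, C_1, one_mul]
    · intro b _ hb
      rw [h1 i hiB, if_neg hb, C_0, zero_mul]
    · intro h
      exact absurd (Finset.mem_univ _) h
  have hF1e : F1 = - aeval (gr mm) F2 := by
    have h4 : aeval (gr mm) F1 + aeval (gr mm) F2 = 0 := by
      rw [← map_add, hF12, h0]
    rw [hg1] at h4
    exact eq_neg_of_add_eq_zero_left h4
  -- the field generated by the other coefficients and the parameters
  let I1 : Type := {γ : {γ : Fin 6 →₀ ℕ // p γ} // ¬ γ.1.support ⊆ B}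
  let f1 : I1 → ℂ := fun γ => coeff γ.1.1 F
  let T' : Set ℂ := (fun q : Fin 6 × Fin 6 => mm q.1 q.2) '' (T : Set (Fin 6 × Fin 6))
  set L0 := IntermediateField.adjoin ℚ (range f1 ∪ T') with hL0
  have hmm : ∀ i b, mm i b ∈ L0 := by
    intro i b
    by_cases hb : (i, b) ∈ T
    · exact IntermediateField.subset_adjoin ℚ _ (Or.inr ⟨(i, b), hb, rfl⟩)
    · obtain ⟨c, hc⟩ := hT i b hb
      rw [hc]
      exact L0.algebraMap_mem c
  have hc2m : ∀ β, coeff β F2 ∈ L0 := by
    intro β
    rw [hc2]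
    split_ifs with hβ
    · exact zero_mem _
    · by_cases hp : p β
      · exact IntermediateField.subset_adjoin ℚ _ (Or.inl ⟨⟨⟨β, hp⟩, hβ⟩, rfl⟩)
      · obtain ⟨c, hc⟩ := hq β hp
        rw [hc]
        exact L0.algebraMap_mem c
  obtain ⟨F2', hF2'⟩ : F2 ∈ Set.range (MvPolynomial.map (algebraMap L0 ℂ)) := by
    rw [mem_range_map_iff_coeffs_subset]
    intro c hc
    obtain ⟨β, -, rfl⟩ := mem_coeffs_iff.mp hc
    exact ⟨⟨_, hc2m β⟩, rfl⟩
  have hc1m : ∀ β, coeff β F1 ∈ L0 := by
    intro β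
    have h4 : aeval (gr mm) F2 = map (algebraMap L0 ℂ)
        (aeval (gr fun i b => (⟨mm i b, hmm i b⟩ : L0)) F2') := by
      rw [map_gr, hF2']
      rfl
    rw [hF1e, coeff_neg, h4, coeff_map]
    exact neg_mem (coeff β _ : L0).2
  -- the independent family
  let e : I1 ⊕ S → {γ : Fin 6 →₀ ℕ // p γ} := Sum.elim (fun γ => γ.1)
    (fun t => ⟨C8.ext t.1, (hS t.1 t.2).2⟩)
  have he : Function.Injective e := by
    rintro (a | a) (b | b) hab
    · exact congrArg Sum.inl (Subtype.ext hab)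
    · exfalso
      apply a.2
      have h4 : a.1.1 = C8.ext b.1 := congrArg Subtype.val hab
      intro i hi
      rw [h4, Finsupp.mem_support_iff] at hi
      exact ext_support' (hS b.1 b.2).1 i hi
    · exfalso
      apply b.2
      have h4 : C8.ext a.1 = b.1.1 := congrArg Subtype.val hab
      intro i hi
      rw [← h4, Finsupp.mem_support_iff] at hi
      exact ext_support' (hS a.1 a.2).1 i hi
    · have h4 : C8.ext a.1 = C8.ext b.1 := congrArg Subtype.val hab
      exact congrArg Sum.inr (Subtype.ext (ext_inj' (hS a.1 a.2).1 (hS b.1 b.2).1 h4))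
  have hind2 := hind.comp e he
  have hcard := rk_range hind2
  have hsub : range ((fun γ : {γ : Fin 6 →₀ ℕ // p γ} => coeff γ.1 F) ∘ e) ⊆ (L0 : Set ℂ) := by
    rintro _ ⟨(γ | t), rfl⟩
    · exact IntermediateField.subset_adjoin ℚ _ (Or.inl ⟨γ, rfl⟩)
    · change coeff (C8.ext t.1) F ∈ L0
      rw [hc1 (C8.ext t.1)]
      · exact hc1m _
      · intro i hi
        rw [Finsupp.mem_support_iff] at hi
        exact ext_support' (hS t.1 t.2).1 i hi
  have h4 := (rk_le_of_subset_adjoin ℚ ℂ hsub).trans (rk_union_le ℚ ℂ (range f1) T')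
  rw [hcard] at h4
  have hT' : T'.encard ≤ (T.card : ℕ∞) := by
    refine (Set.encard_image_le _ _).trans ?_
    rw [Set.encard_coe_eq_coe_finsetCard]
  have hf1 := rk_range_le (k := ℚ) f1
  have : Finite I1 := by
    change Finite {γ : {γ : Fin 6 →₀ ℕ // p γ} // ¬ γ.1.support ⊆ B}
    infer_instance
  have e1 : ENat.card (I1 ⊕ S) = ((Nat.card I1 + S.card : ℕ) : ℕ∞) := by
    rw [ENat.card_eq_coe_natCard, Nat.card_sum]
    simp
  have e2 : ENat.card I1 = ((Nat.card I1 : ℕ) : ℕ∞) := ENat.card_eq_coe_natCard _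
  rw [e2] at hf1
  rw [e1] at h4
  have h5 := h4.trans (add_le_add hf1 hT')
  have h6 : Nat.card I1 + S.card ≤ Nat.card I1 + T.card := by exact_mod_cast h5
  omega

end

end Pool.Agent.R845.Eck
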