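import Mathlib
import Pool.Agent.R845.Eck.Planes

/-! # Project Eck: the planes in the very general cubic fourfold with an Eckardt point -/

set_option autoImplicit false

namespace Pool.Agent.R845.Eck

open MvPolynomial Pool.Agent.R845.E3 Pool.Agent.R845.C8

noncomputable section

/-- the equation of a cubic fourfold with an Eckardt point -/
def eq {K : Type} [Field K] (f : MvPolynomial (Fin 5) K) : MvPolynomial (Fin 6) K :=
  X 0 ^ 2 * X 1 + rename Fin.succ f

theorem eq_homog {K : Type} [Field K] {f : MvPolynomial (Fin 5) K} (hf : f.IsHomogeneous 3) :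
    (eq f).IsHomogeneous 3 := by
  unfold eq
  exact (((isHomogeneous_X K _).pow 2).mul (isHomogeneous_X K _)).add hf.rename_isHomogeneous

/-- the exponents of the free coefficients -/
def p5 (γ : Fin 6 →₀ ℕ) : Prop := γ.degree = 3 ∧ γ 0 = 0

instance : Finite {γ : Fin 6 →₀ ℕ // p5 γ} := by
  have := finite_degree 6 3
  exact Finite.of_injective (fun β : {γ : Fin 6 →₀ ℕ // p5 γ} =>
    (⟨β.1, β.2.1⟩ : {γ : Fin 6 →₀ ℕ // γ.degree = 3})) (by
      intro a b hab
      exact Subtype.ext (by simpa using hab))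

theorem coeff_sq {K : Type} [Field K] (γ : Fin 6 →₀ ℕ) :
    coeff γ (X 0 ^ 2 * X 1 : MvPolynomial (Fin 6) K) =
      if γ = Finsupp.single 0 2 + Finsupp.single 1 1 then 1 else 0 := by
  classical
  rw [X_pow_eq_monomial, X, monomial_mul, one_mul, coeff_monomial]
  simp only [eq_comm]

theorem tail_eq {γ : Fin 6 →₀ ℕ} (h : γ 0 = 0) :
    (Finsupp.tail γ).mapDomain Fin.succ = γ := by
  ext i
  refine Fin.cases ?_ (fun j => ?_) i
  · rw [Finsupp.mapDomain_of_notMem_range, h]
    rintro ⟨j, hj⟩
    exact Fin.succ_ne_zero j hj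
  · rw [Finsupp.mapDomain_apply (Fin.succ_injective _), Finsupp.tail_apply]

theorem coeff_eq_p {K : Type} [Field K] (f : MvPolynomial (Fin 5) K) {γ : Fin 6 →₀ ℕ}
    (h : γ 0 = 0) : coeff γ (eq f) = coeff (Finsupp.tail γ) f := by
  unfold eq
  rw [coeff_add, coeff_sq, if_neg, zero_add]
  · conv_lhs => rw [← tail_eq h]
    rw [coeff_rename_mapDomain _ (Fin.succ_injective _)]
  · rintro rfl
    simp at h

theorem coeff_eq_n {K : Type} [Field K] {f : MvPolynomial (Fin 5) K} (hf : f.IsHomogeneous 3)
    {γ : Fin 6 →₀ ℕ} (h : ¬ p5 γ) :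
    coeff γ (eq f) = if γ = Finsupp.single 0 2 + Finsupp.single 1 1 then 1 else 0 := by
  by_cases hd : γ.degree = 3
  · have h0 : γ 0 ≠ 0 := fun h0 => h ⟨hd, h0⟩
    unfold eq
    rw [coeff_add, coeff_sq, coeff_rename_eq_zero, add_zero]
    intro u hu
    exfalso
    apply h0
    rw [← hu, Finsupp.mapDomain_of_notMem_range]
    rintro ⟨j, hj⟩
    exact Fin.succ_ne_zero j hj
  · rw [(eq_homog hf).coeff_eq_zero hd, if_neg]
    rintro rfl
    apply hd
    rw [map_add, Finsupp.degree_single, Finsupp.degree_single]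

theorem ind5 {f : MvPolynomial (Fin 5) ℂ}
    (hind : AlgebraicIndependent ℚ
      (fun α : {α : Fin 5 →₀ ℕ // α.degree = 3} => coeff α.1 f)) :
    AlgebraicIndependent ℚ (fun γ : {γ : Fin 6 →₀ ℕ // p5 γ} => coeff γ.1 (eq f)) := by
  let e : {γ : Fin 6 →₀ ℕ // p5 γ} → {α : Fin 5 →₀ ℕ // α.degree = 3} :=
    fun γ => ⟨Finsupp.tail γ.1, by
      have h1 := γ.2.1
      rw [← tail_eq γ.2.2, Finsupp.degree_mapDomain] at h1
      exact h1⟩
  have he : Function.Injective e := by
    intro a b hab
    apply Subtype.ext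
    have h1 : Finsupp.tail a.1 = Finsupp.tail b.1 :=
      congrArg (fun z : {α : Fin 5 →₀ ℕ // α.degree = 3} => z.1) hab
    rw [← tail_eq a.2.2, ← tail_eq b.2.2, h1]
  have h1 := hind.comp e he
  have h2 : (fun γ : {γ : Fin 6 →₀ ℕ // p5 γ} => coeff γ.1 (eq f)) =
      (fun α : {α : Fin 5 →₀ ℕ // α.degree = 3} => coeff α.1 f) ∘ e := by
    funext γ
    exact coeff_eq_p f γ.2.2
  rw [h2]
  exact h1

theorem count9 : ∀ B ∈ Finset.powersetCard 3 (Finset.univ : Finset (Fin 6)),
    (Finset.univ.filter fun t : Fin 6 × Fin 6 => t.1 ∉ B ∧ t.2 ∈ B).card < (srt B).card := by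
  unfold srt
  decide +kernel

theorem eval_eq (f : MvPolynomial (Fin 5) ℂ) (z : Fin 6 → ℂ) :
    eval z (eq f) = z 0 ^ 2 * z 1 + eval (fun i => z i.succ) f := by
  unfold eq
  rw [map_add, map_mul, map_pow, eval_X, eval_X, eval_rename]
  rfl

/-- all planes contain the Eckardt point and are contained in the tangent hyperplane -/
theorem planes {f : MvPolynomial (Fin 5) ℂ} (hf : f.IsHomogeneous 3)
    (hind : AlgebraicIndependent ℚ
      (fun α : {α : Fin 5 →₀ ℕ // α.degree = 3} => coeff α.1 f))
    (v : Fin 3 → Fin 6 → ℂ) (hv : LinearIndependent ℂ v)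
    (hvF : ∀ b : Fin 3 → ℂ, eval (fun i => ∑ l, b l * v l i) (eq f) = 0) :
    (∀ l, v l 1 = 0) ∧ ∃ a : Fin 3 → ℂ, ∑ l, a l * v l 0 = 1 ∧
      ∀ i, i ≠ 0 → ∑ l, a l * v l i = 0 := by
  classical
  let φ : Fin 6 → (Fin 3 → ℂ) := fun i l => v l i
  obtain ⟨B, hBJ, -, hBspan, hBli⟩ := exists_linearIndepOn_extension (K := ℂ) (v := φ)
    (linearIndepOn_empty ℂ φ) (Set.empty_subset {i | i ≠ 0})
  have hB0 : (0 : Fin 6) ∉ B := fun h => (hBJ h) rfl
  have hlin : ∀ (g : (Fin 3 → ℂ) →ₗ[ℂ] ℂ) (w : Fin 3 → ℂ), g w = ∑ l, g (Pi.single l 1) * w l := by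
    intro g w
    conv_lhs => rw [← Finset.univ_sum_single w]
    rw [map_sum]
    refine Finset.sum_congr rfl fun l _ => ?_
    have h2 : (Pi.single l (w l) : Fin 3 → ℂ) = w l • Pi.single l 1 := by
      rw [← Pi.single_smul, smul_eq_mul, mul_one]
    rw [h2, map_smul, smul_eq_mul, mul_comm]
  by_cases hspanB : Submodule.span ℂ (φ '' B) = ⊤
  · exfalso
    set B' : Finset (Fin 6) := B.toFinset with hB'
    have hmemB : ∀ i, i ∈ B' ↔ i ∈ B := fun i => by rw [hB', Set.mem_toFinset]
    have hcard : B'.card = 3 := by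
      have h1 : LinearIndependent ℂ (fun b : B => φ b) := hBli
      have h2 : Submodule.span ℂ (Set.range fun b : B => φ b) = ⊤ := by
        rw [← Set.image_eq_range]
        exact hspanB
      have h3 := finrank_span_eq_card h1
      rw [h2, finrank_top, Module.finrank_fin_fun] at h3
      rw [hB', Set.toFinset_card]
      exact h3.symm
    have hex : ∀ i : Fin 6, ∃ c : Fin 6 → ℂ, (∀ b, b ∉ B → c b = 0) ∧
        (i ∈ B → ∀ b, c b = if b = i then 1 else 0) ∧ φ i = ∑ b, c b • φ b := by
      intro i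
      by_cases hiB : i ∈ B
      · refine ⟨fun b => if b = i then 1 else 0, ?_, fun _ b => rfl, ?_⟩
        · intro b hb
          change (if b = i then (1 : ℂ) else 0) = 0
          rw [if_neg]
          rintro rfl
          exact hb hiB
        · change φ i = ∑ b, (if b = i then (1 : ℂ) else 0) • φ b
          rw [Finset.sum_eq_single i]
          · rw [if_pos rfl, one_smul]
          · intro b _ hb
            rw [if_neg hb, zero_smul]
          · intro h
            exact absurd (Finset.mem_univ _) h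
      · have h1 : φ i ∈ Submodule.span ℂ (φ '' B) := by
          rw [hspanB]
          trivial
        rw [Finsupp.mem_span_image_iff_linearCombination] at h1
        obtain ⟨c, hc, hci⟩ := h1
        rw [Finsupp.mem_supported] at hc
        refine ⟨c, ?_, fun h => absurd h hiB, ?_⟩
        · intro b hb
          by_contra h4
          exact hb (hc (Finsupp.mem_support_iff.2 h4))
        · rw [← hci, Finsupp.linearCombination_apply, Finsupp.sum_fintype]
          intro b
          rw [zero_smul]
    choose mm hm2 hm1 hm0 using hex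
    refine no_graph_gen (F := eq f) p5 inferInstance ?_ (ind5 hind) B' mm
      (fun i hi b => hm1 i ((hmemB i).1 hi) b)
      (Finset.univ.filter fun t : Fin 6 × Fin 6 => t.1 ∉ B' ∧ t.2 ∈ B') ?_ (srt B') ?_
      (count9 B' (by rw [Finset.mem_powersetCard]; exact ⟨Finset.subset_univ _, hcard⟩)) ?_
    · intro γ hγ
      rw [coeff_eq_n hf hγ]
      split_ifs
      · exact ⟨1, (map_one _).symm⟩
      · exact ⟨0, (map_zero _).symm⟩
    · intro i b hib
      by_cases hi : i ∈ B
      · rw [hm1 i hi]
        split_ifs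
        · exact ⟨1, (map_one _).symm⟩
        · exact ⟨0, (map_zero _).symm⟩
      · by_cases hb : b ∈ B
        · exfalso
          apply hib
          rw [Finset.mem_filter]
          exact ⟨Finset.mem_univ _, fun h => hi ((hmemB i).1 h), (hmemB b).2 hb⟩
        · exact ⟨0, by rw [hm2 i b hb, map_zero]⟩
    · intro t ht
      refine ⟨ht, ext_degree t, ?_⟩
      by_contra h
      exact hB0 ((hmemB 0).1 (ext_support' ht 0 h))
    · apply MvPolynomial.funext
      intro u
      obtain ⟨g, hg⟩ := exists_functional hBli u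
      have h2 : eval u (aeval (gr mm) (eq f)) = eval (fun i => ∑ b, mm i b * u b) (eq f) := by
        rw [← aeval_eq_eval, ← aeval_eq_eval, comp_aeval_apply]
        congr 2
        funext i
        simp [gr]
      rw [h2, map_zero]
      have h3 : (fun i => ∑ b, mm i b * u b) = fun i => ∑ l, g (Pi.single l 1) * v l i := by
        funext i
        rw [← hlin g (φ i), hm0 i, map_sum]
        refine Finset.sum_congr rfl fun b _ => ?_
        rw [map_smul, smul_eq_mul]
        by_cases hb : b ∈ B
        · rw [hg b hb]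
        · rw [hm2 i b hb, zero_mul, zero_mul]
      rw [h3]
      exact hvF _
  · obtain ⟨g, hg0, hg⟩ := Submodule.exists_le_ker_of_lt_top _ (lt_top_iff_ne_top.2 hspanB)
    have hgi : ∀ i, i ≠ 0 → g (φ i) = 0 := by
      intro i hi
      exact hg (hBspan ⟨i, hi, rfl⟩)
    have hg00 : g (φ 0) ≠ 0 := by
      intro h
      have h1 : ∑ l, g (Pi.single l 1) • v l = 0 := by
        funext i
        rw [Finset.sum_apply, Pi.zero_apply]
        simp only [Pi.smul_apply, smul_eq_mul]
        rw [← hlin g (φ i)]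
        by_cases hi : i = 0
        · rw [hi, h]
        · exact hgi i hi
      have h2 := (Fintype.linearIndependent_iff.1 hv) _ h1
      apply hg0
      apply LinearMap.ext
      intro w
      rw [hlin g w, LinearMap.zero_apply]
      exact Finset.sum_eq_zero fun l _ => by rw [h2, zero_mul]
    obtain ⟨a, ha0, ha⟩ : ∃ a : Fin 3 → ℂ, ∑ l, a l * v l 0 = 1 ∧
        ∀ i, i ≠ 0 → ∑ l, a l * v l i = 0 := by
      refine ⟨fun l => (g (φ 0))⁻¹ * g (Pi.single l 1), ?_, ?_⟩
      · simp only [mul_assoc]
        rw [← Finset.mul_sum, ← hlin g (φ 0), inv_mul_cancel₀ hg00]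
      · intro i hi
        simp only [mul_assoc]
        rw [← Finset.mul_sum, ← hlin g (φ i), hgi i hi, mul_zero]
    refine ⟨?_, a, ha0, ha⟩
    intro l
    have key : ∀ s : ℂ, (v l 0 + s) ^ 2 * v l 1 + eval (fun i => v l (Fin.succ i)) f = 0 := by
      intro s
      have h1 := hvF (fun l' => (if l' = l then 1 else 0) + s * a l')
      have h2 : (fun i => ∑ l', ((if l' = l then 1 else 0) + s * a l') * v l' i) =
          fun i => v l i + s * ∑ l', a l' * v l' i := by
        funext i
        simp only [add_mul, Finset.sum_add_distrib, mul_assoc, ← Finset.mul_sum, ite_mul, one_mul,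
          zero_mul, Finset.sum_ite_eq', Finset.mem_univ, if_true]
      rw [h2, eval_eq] at h1
      simp only [ha0, ha 1 one_ne_zero, ha _ (Fin.succ_ne_zero _), mul_zero, add_zero,
        mul_one] at h1
      exact h1
    have k0 := key 0
    have k1 := key 1
    have k2 := key 2
    have : 2 * v l 1 = 0 := by linear_combination k0 - 2 * k1 + k2
    exact (mul_eq_zero.1 this).resolve_left two_ne_zero

end

end Pool.Agent.R845.Eck
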