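import Mathlib
import Pool.Agent.R845.E3.Spec
import Pool.Agent.R845.C8.Ani

/-! # Project Eck: specialization of a rational section, general form -/

set_option autoImplicit false

namespace Pool.Agent.R845.Eck

open MvPolynomial Pool.Agent.R845.E3

noncomputable section

/-- specialization of a solution, for forms whose coefficients are polynomials in independent
parameters -/
theorem spec_gen {k m : ℕ} {K : Type} [Field K] [CharZero K] {ι : Type} (f : ι → K)
    (hf : AlgebraicIndependent ℚ f) (P : (Fin (k + 1 + (m + 1)) →₀ ℕ) → MvPolynomial ι ℚ)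
    {F : MvPolynomial (Fin (k + 1 + (m + 1))) K} (hF : F.IsHomogeneous 3) (hW : VanW F)
    (hP : ∀ β, coeff β F = aeval f (P β)) (a0 : ι → ℚ)
    {F0 : MvPolynomial (Fin (k + 1 + (m + 1))) ℚ} (hP0 : ∀ β, coeff β F0 = eval a0 (P β))
    (hiso : Iso F) :
    ∃ (κ : Type) (_ : Field κ) (_ : Algebra ℚ κ), Iso (map (algebraMap ℚ κ) F0) := by
  classical
  obtain ⟨V, ψ, hψ, hψ0⟩ := exists_place f hf a0
  let κ := IsLocalRing.ResidueField V
  let r : V →+* κ := IsLocalRing.residue V
  let _ : Algebra ℚ κ := (r.comp (ψ.comp C)).toAlgebra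
  refine ⟨κ, inferInstance, inferInstance, ?_⟩
  have hex : ∀ β, ∃ v : V, (v : K) = coeff β F ∧ r v = algebraMap ℚ κ (coeff β F0) := by
    intro β
    refine ⟨ψ (P β), ?_, ?_⟩
    · rw [hψ, hP]
    · rw [hP0]
      exact hψ0 (P β)
  obtain ⟨FV, hFV⟩ : ∃ FV : MvPolynomial (Fin (k + 1 + (m + 1))) V, map V.subtype FV = F := by
    have h1 : F ∈ Set.range (MvPolynomial.map V.subtype) := by
      rw [mem_range_map_iff_coeffs_subset]
      intro c hc
      rw [Finset.mem_coe, mem_coeffs_iff] at hc
      obtain ⟨β, -, rfl⟩ := hc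
      obtain ⟨v, hv, -⟩ := hex β
      exact ⟨v, hv⟩
    exact h1
  have hFr : map r FV = map (algebraMap ℚ κ) F0 := by
    ext β
    rw [coeff_map, coeff_map]
    obtain ⟨v, hv, hv2⟩ := hex β
    have h1 : coeff β FV = v := by
      apply Subtype.ext
      rw [hv, ← hFV, coeff_map]
      rfl
    rw [h1, hv2]
  rw [← hFr]
  have hinj : Function.Injective (map V.subtype : MvPolynomial (Fin m) V → MvPolynomial (Fin m) K) :=
    map_injective _ Subtype.val_injective
  have hu0 : ∀ c' : Fin (k + 1) → MvPolynomial (Fin m) V,
      aeval (Fin.append c' (0 : Fin (m + 1) → MvPolynomial (Fin m) V)) FV = 0 := by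
    intro c'
    apply hinj
    rw [map_zero, map_aeval', hFV, append_mapS]
    have e : (fun j => map V.subtype ((0 : Fin (m + 1) → MvPolynomial (Fin m) V) j)) =
        (0 : Fin (m + 1) → MvPolynomial (Fin m) K) := by
      funext j; simp
    rw [e]
    exact vanW_aevalS hW _
  have hder : ∀ (θ : V →+* κ) (c' : Fin (k + 1) → MvPolynomial (Fin m) V) (i : Fin (k + 1 + (m + 1))),
      map θ (aeval (Fin.append c' (0 : Fin (m + 1) → MvPolynomial (Fin m) V)) (pderiv i FV)) =
        aeval (Fin.append (fun i => map θ (c' i)) (0 : Fin (m + 1) → MvPolynomial (Fin m) κ))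
          (pderiv i (map θ FV)) := by
    intro θ c' i
    have e : (fun j => map θ ((0 : Fin (m + 1) → MvPolynomial (Fin m) V) j)) =
        (0 : Fin (m + 1) → MvPolynomial (Fin m) κ) := by
      funext j; simp
    rw [map_aeval', append_mapS, pderiv_map, e]
  have hderK : ∀ (c' : Fin (k + 1) → MvPolynomial (Fin m) V) (i : Fin (k + 1 + (m + 1))),
      map V.subtype (aeval (Fin.append c' (0 : Fin (m + 1) → MvPolynomial (Fin m) V)) (pderiv i FV)) =
        aeval (Fin.append (fun i => map V.subtype (c' i)) (0 : Fin (m + 1) → MvPolynomial (Fin m) K))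
          (pderiv i F) := by
    intro c' i
    have e : (fun j => map V.subtype ((0 : Fin (m + 1) → MvPolynomial (Fin m) V) j)) =
        (0 : Fin (m + 1) → MvPolynomial (Fin m) K) := by
      funext j; simp
    rw [map_aeval', append_mapS, ← pderiv_map, hFV, e]
  -- reduction of the second alternative
  have hred : ∀ c' : Fin (k + 1) → MvPolynomial (Fin m) V, ∀ T : MvPolynomial (Fin m) V, map r T = 0 →
      ∑ j, yw V m j * aeval (Fin.append c' (0 : Fin (m + 1) → MvPolynomial (Fin m) V))
        (pderiv (Fin.natAdd (k + 1) j) FV) + T = 0 →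
      ∑ j, yv κ m j * aeval (Fin.append (fun i => map r (c' i)) 0)
        (pderiv (Fin.natAdd (k + 1) j) (map r FV)) = 0 := by
    intro c' T hT h1
    have h2 := congrArg (map r) h1
    rw [map_zero, map_add, hT, add_zero, map_sum] at h2
    rw [← h2]
    refine Finset.sum_congr rfl fun j _ => ?_
    rw [map_mul, map_yw, hder, yv_eq_yw]
  obtain ⟨c, l, hcl⟩ := hiso
  rcases hcl with ⟨hl, hz⟩ | ⟨hc, hz⟩
  · -- first alternative
    obtain ⟨s, g', hs0, hg', i0, hi0⟩ := exists_scale V
      (fun o : Option (Fin (k + 1)) => o.elim l c) ⟨none, hl⟩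
    obtain ⟨l', hl'⟩ : ∃ l', l' = g' none := ⟨_, rfl⟩
    obtain ⟨c', hc'⟩ : ∃ c' : Fin (k + 1) → MvPolynomial (Fin m) V, c' = fun i => g' (some i) := ⟨_, rfl⟩
    have hls : l = C s * map V.subtype l' := by rw [hl']; exact hg' none
    have hcs : ∀ i, c i = C s * map V.subtype (c' i) := by intro i; rw [hc']; exact hg' (some i)
    have hCs : (C s : MvPolynomial (Fin m) K) ≠ 0 := by rwa [Ne, C_eq_zero]
    have hA : aeval (Fin.append c' (fun j => l' * yw V m j)) FV = 0 := by
      apply hinj
      rw [map_zero, map_aeval', hFV, append_mapS]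
      have e1 : (Fin.append c (fun j => l * yv K m j)) = fun i => C s *
          Fin.append (fun i => map V.subtype (c' i)) (fun j => map V.subtype (l' * yw V m j)) i := by
        funext i
        refine Fin.addCases (fun i => ?_) (fun j => ?_) i
        · rw [Fin.append_left, Fin.append_left, hcs]
        · rw [Fin.append_right, Fin.append_right, hls, map_mul, map_yw, mul_assoc]
          rfl
      rw [e1, aeval_scale hF] at hz
      exact (mul_eq_zero.1 hz).resolve_left (pow_ne_zero 3 hCs)
    refine ⟨fun i => map r (c' i), map r l', ?_⟩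
    by_cases hlb : map r l' = 0
    · right
      constructor
      · intro h0
        rcases i0 with _ | i
        · rw [← hl'] at hi0
          exact hi0 hlb
        · apply hi0
          have := congrFun h0 i
          rw [hc'] at this
          exact this
      · obtain ⟨T, hT⟩ := taylor2 FV (Fin.append c' (0 : Fin (m + 1) → MvPolynomial (Fin m) V))
          (Fin.append (0 : Fin (k + 1) → MvPolynomial (Fin m) V) (yw V m)) l'
        have e1 : (fun i => Fin.append c' (0 : Fin (m + 1) → MvPolynomial (Fin m) V) i +
            l' * Fin.append (0 : Fin (k + 1) → MvPolynomial (Fin m) V) (yw V m) i) =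
            Fin.append c' (fun j => l' * yw V m j) := by
          funext i
          refine Fin.addCases (fun i => ?_) (fun j => ?_) i <;> simp
        rw [e1, hA, hu0, zero_add, sum_append] at hT
        have hl'0 : l' ≠ 0 := by
          intro h0
          apply hl
          rw [hls, h0, map_zero, mul_zero]
        have h2 : l' * (∑ j, yw V m j * aeval (Fin.append c' (0 : Fin (m + 1) → MvPolynomial (Fin m) V))
            (pderiv (Fin.natAdd (k + 1) j) FV) + l' * T) = 0 := by
          rw [hT]
          ring
        have h3 := (mul_eq_zero.1 h2).resolve_left hl'0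
        exact hred c' (l' * T) (by rw [map_mul, hlb, zero_mul]) h3
    · left
      refine ⟨hlb, ?_⟩
      have h2 := congrArg (map r) hA
      have e2 : (fun j => map r (l' * yw V m j)) = fun j => map r l' * yv κ m j := by
        funext j
        rw [map_mul, map_yw]
        rfl
      rw [map_zero, map_aeval', append_mapS, e2] at h2
      exact h2
  · -- second alternative
    obtain ⟨s, c', hs0, hg', i0, hi0⟩ := exists_scale V c (by
      by_contra hcon
      push Not at hcon
      exact hc (funext hcon))
    have hCs : (C s : MvPolynomial (Fin m) K) ≠ 0 := by rwa [Ne, C_eq_zero]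
    refine ⟨fun i => map r (c' i), 0, Or.inr ⟨?_, ?_⟩⟩
    · intro h0
      exact hi0 (congrFun h0 i0)
    · apply hred c' 0 (map_zero _)
      rw [add_zero]
      apply hinj
      rw [map_zero, map_sum]
      have e1 : (Fin.append c (0 : Fin (m + 1) → MvPolynomial (Fin m) K)) = fun i => C s *
          Fin.append (fun i => map V.subtype (c' i)) (0 : Fin (m + 1) → MvPolynomial (Fin m) K) i := by
        funext i
        refine Fin.addCases (fun i => ?_) (fun j => ?_) i
        · rw [Fin.append_left, Fin.append_left, hg']
        · simp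
      have h2 : C s ^ 2 * ∑ j, map V.subtype (yw V m j *
          aeval (Fin.append c' (0 : Fin (m + 1) → MvPolynomial (Fin m) V))
            (pderiv (Fin.natAdd (k + 1) j) FV)) = 0 := by
        rw [← hz, Finset.mul_sum]
        refine Finset.sum_congr rfl fun j _ => ?_
        rw [map_mul, map_yw, hderK, e1, aeval_scale (hF.pderiv)]
        rw [yv_eq_yw]
        ring
      exact (mul_eq_zero.1 h2).resolve_left (pow_ne_zero 2 hCs)

end

end Pool.Agent.R845.Eck
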