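import Mathlib
import Pool.Agent.R845.Eck.Eqn
import Pool.Agent.R845.Eck.Spec

/-! # Project Eck: no rational sections -/

set_option autoImplicit false

namespace Pool.Agent.R845.Eck

open Set MvPolynomial Pool.Agent.R845.E3 Pool.Agent.R845.E3.Trd Pool.Agent.R845.C8

noncomputable section

theorem cn_ne (i j : Fin (2 + 1)) : Fin.castAdd (2 + 1) i ≠ Fin.natAdd (2 + 1) j := by
  intro h2
  have := congrArg Fin.val h2
  simp only [Fin.val_castAdd, Fin.val_natAdd] at this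
  omega

theorem kl_nat {K : Type} [Field K] (i0 j : Fin (2 + 1)) :
    kl (R := K) (Fin.castAdd (2 + 1) i0) (Fin.natAdd (2 + 1) j) = X (Fin.natAdd (2 + 1) j) := by
  unfold kl
  rw [Function.update_of_ne (cn_ne i0 j).symm]

theorem kl_cast {K : Type} [Field K] {i0 i : Fin (2 + 1)} (h : i ≠ i0) :
    kl (R := K) (Fin.castAdd (2 + 1) i0) (Fin.castAdd (2 + 1) i) = X (Fin.castAdd (2 + 1) i) := by
  unfold kl
  rw [Function.update_of_ne]
  intro h2
  exact h (Fin.castAdd_injective _ _ h2)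

theorem spP_struct (π : Equiv.Perm (Fin (2 + 1))) (K : Type) [Field K] (i0 : Fin (2 + 1)) :
    ∃ H2 : MvPolynomial (Fin (2 + 1 + (2 + 1))) K,
      spP π K = X (Fin.natAdd (2 + 1) (π i0)) * X (Fin.castAdd (2 + 1) i0) ^ 2 + H2 ∧
      aeval (kl (R := K) (Fin.castAdd (2 + 1) i0)) H2 = H2 := by
  classical
  obtain ⟨S, hS⟩ : ∃ S : MvPolynomial (Fin (2 + 1 + (2 + 1))) K,
    S = ∑ i ∈ Finset.univ.erase i0,
      X (Fin.natAdd (2 + 1) (π i)) * X (Fin.castAdd (2 + 1) i) ^ 2 := ⟨_, rfl⟩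
  obtain ⟨T, hT⟩ : ∃ T : MvPolynomial (Fin (2 + 1 + (2 + 1))) K,
    T = X (Fin.natAdd (2 + 1) 0) * X (Fin.natAdd (2 + 1) 1) * X (Fin.natAdd (2 + 1) 2) :=
      ⟨_, rfl⟩
  have hS2 : aeval (kl (R := K) (Fin.castAdd (2 + 1) i0)) S = S := by
    rw [hS, map_sum]
    refine Finset.sum_congr rfl fun i hi => ?_
    rw [map_mul, map_pow, aeval_X, aeval_X, kl_nat, kl_cast (Finset.ne_of_mem_erase hi)]
  have hT2 : aeval (kl (R := K) (Fin.castAdd (2 + 1) i0)) T = T := by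
    rw [hT, map_mul, map_mul, aeval_X, aeval_X, aeval_X, kl_nat, kl_nat, kl_nat]
  refine ⟨S + T, ?_, ?_⟩
  · unfold spP
    rw [← hT, ← Finset.add_sum_erase Finset.univ _ (Finset.mem_univ i0), ← hS]
    ring
  · rw [map_add, hS2, hT2]

/-- four monomials in two variables -/
def ex4 (i0 : Fin (2 + 1)) (q : Fin 4) : Fin (2 + 1 + (2 + 1)) →₀ ℕ :=
  Finsupp.single (Fin.castAdd (2 + 1) (i0 + 1)) (3 - q.val) +
    Finsupp.single (Fin.castAdd (2 + 1) (i0 + 2)) q.val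

theorem add1_ne (i0 : Fin (2 + 1)) : i0 + 1 ≠ i0 := by
  revert i0; decide

theorem add2_ne (i0 : Fin (2 + 1)) : i0 + 2 ≠ i0 := by
  revert i0; decide

theorem add12_ne (i0 : Fin (2 + 1)) : i0 + 1 ≠ i0 + 2 := by
  revert i0; decide

theorem ex4_degree (i0 : Fin (2 + 1)) (q : Fin 4) : (ex4 i0 q).degree = 3 := by
  unfold ex4
  rw [map_add, Finsupp.degree_single, Finsupp.degree_single]
  have := q.2
  omega

theorem ex4_i0 (i0 : Fin (2 + 1)) (q : Fin 4) : ex4 i0 q (Fin.castAdd (2 + 1) i0) = 0 := by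
  unfold ex4
  rw [Finsupp.add_apply, Finsupp.single_eq_of_ne, Finsupp.single_eq_of_ne, add_zero]
  · intro h
    exact add2_ne i0 (Fin.castAdd_injective _ _ h).symm
  · intro h
    exact add1_ne i0 (Fin.castAdd_injective _ _ h).symm

theorem ex4_nat (i0 : Fin (2 + 1)) (q : Fin 4) (j : Fin (2 + 1)) :
    ex4 i0 q (Fin.natAdd (2 + 1) j) = 0 := by
  unfold ex4
  rw [Finsupp.add_apply, Finsupp.single_eq_of_ne (cn_ne _ _).symm,
    Finsupp.single_eq_of_ne (cn_ne _ _).symm, add_zero]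

theorem ex4_inj (i0 : Fin (2 + 1)) {q q' : Fin 4} (h : ex4 i0 q = ex4 i0 q') : q = q' := by
  have h1 : ∀ q : Fin 4, ex4 i0 q (Fin.castAdd (2 + 1) (i0 + 2)) = q.val := by
    intro q
    unfold ex4
    rw [Finsupp.add_apply, Finsupp.single_eq_same, Finsupp.single_eq_of_ne, zero_add]
    intro h
    exact add12_ne i0 (Fin.castAdd_injective _ _ h).symm
  apply Fin.ext
  rw [← h1 q, h, h1]

instance (i0 : Fin (2 + 1)) : Finite {γ : Fin (2 + 1 + (2 + 1)) →₀ ℕ // pr i0 γ} := by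
  have := finite_degree (2 + 1 + (2 + 1)) 3
  exact Finite.of_injective (fun β : {γ : Fin (2 + 1 + (2 + 1)) →₀ ℕ // pr i0 γ} =>
    (⟨β.1, β.2.1⟩ : {γ : Fin (2 + 1 + (2 + 1)) →₀ ℕ // γ.degree = 3})) (by
      intro a b hab
      exact Subtype.ext (by simpa using hab))

variable {f : MvPolynomial (Fin 5) ℂ} (σ : Fin (2 + 1 + (2 + 1)) ≃ Fin 6)
  (U : Fin (2 + 1) → Fin (2 + 1) → ℂ) (i0 j1 : Fin (2 + 1))

theorem card_le (h0 : σ (Fin.castAdd (2 + 1) i0) = 0) :
    Nat.card {γ : Fin (2 + 1 + (2 + 1)) →₀ ℕ // pr i0 γ} + 4 ≤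
      Nat.card {γ : Fin 6 →₀ ℕ // p5 γ} := by
  classical
  have h4 : Nat.card (Fin 4) = 4 := by simp
  rw [← h4, ← Nat.card_sum]
  have hz : ∀ γ : Fin (2 + 1 + (2 + 1)) →₀ ℕ, (γ.mapDomain σ) 0 = γ (Fin.castAdd (2 + 1) i0) := by
    intro γ
    rw [← h0, Finsupp.mapDomain_apply σ.injective]
  refine Nat.card_le_card_of_injective (Sum.elim
    (fun γ : {γ : Fin (2 + 1 + (2 + 1)) →₀ ℕ // pr i0 γ} =>
      (⟨γ.1.mapDomain σ, by rw [Finsupp.degree_mapDomain]; exact γ.2.1, by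
        rw [hz]; exact γ.2.2.1⟩ : {γ : Fin 6 →₀ ℕ // p5 γ}))
    (fun q : Fin 4 => (⟨(ex4 i0 q).mapDomain σ, by
        rw [Finsupp.degree_mapDomain]; exact ex4_degree i0 q, by
        rw [hz]; exact ex4_i0 i0 q⟩ : {γ : Fin 6 →₀ ℕ // p5 γ}))) ?_
  rintro (a | a) (b | b) hab
  · have h1 : a.1.mapDomain σ = b.1.mapDomain σ :=
      congrArg (fun z : {γ : Fin 6 →₀ ℕ // p5 γ} => z.1) hab
    exact congrArg Sum.inl (Subtype.ext (Finsupp.mapDomain_injective σ.injective h1))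
  · have h1 : a.1.mapDomain σ = (ex4 i0 b).mapDomain σ :=
      congrArg (fun z : {γ : Fin 6 →₀ ℕ // p5 γ} => z.1) hab
    have h2 := Finsupp.mapDomain_injective σ.injective h1
    obtain ⟨j, hj⟩ := a.2.2.2
    exact absurd (by rw [h2]; exact ex4_nat i0 b j) hj
  · have h1 : (ex4 i0 a).mapDomain σ = b.1.mapDomain σ :=
      congrArg (fun z : {γ : Fin 6 →₀ ℕ // p5 γ} => z.1) hab
    have h2 := Finsupp.mapDomain_injective σ.injective h1
    obtain ⟨j, hj⟩ := b.2.2.2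
    exact absurd (by rw [← h2]; exact ex4_nat i0 a j) hj
  · have h1 : (ex4 i0 a).mapDomain σ = (ex4 i0 b).mapDomain σ :=
      congrArg (fun z : {γ : Fin 6 →₀ ℕ // p5 γ} => z.1) hab
    exact congrArg Sum.inr (ex4_inj i0 (Finsupp.mapDomain_injective σ.injective h1))

/-- the structure of the equation in the new coordinates -/
theorem struct (h0 : σ (Fin.castAdd (2 + 1) i0) = 0) (h1 : σ (Fin.natAdd (2 + 1) j1) = 1)
    (hU0 : ∀ j, U i0 j = 0) (hU1 : ∀ i, U i j1 = 0) :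
    ∃ H2 : MvPolynomial (Fin (2 + 1 + (2 + 1))) ℂ,
      shear U (rename σ.symm (eq f)) =
        X (Fin.natAdd (2 + 1) j1) * X (Fin.castAdd (2 + 1) i0) ^ 2 + H2 ∧
      aeval (kl (R := ℂ) (Fin.castAdd (2 + 1) i0)) H2 = H2 := by
  classical
  have e0 : σ.symm 0 = Fin.castAdd (2 + 1) i0 := by rw [← h0, Equiv.symm_apply_apply]
  have e1 : σ.symm 1 = Fin.natAdd (2 + 1) j1 := by rw [← h1, Equiv.symm_apply_apply]
  refine ⟨shear U (rename σ.symm (rename Fin.succ f)), ?_, ?_⟩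
  · unfold eq shear
    simp only [map_add, map_mul, map_pow, rename_X, aeval_X]
    rw [e0, e1, Fin.append_left, Fin.append_right]
    simp only [hU1, C_0, zero_mul, Finset.sum_const_zero, add_zero]
    ring
  · unfold shear
    rw [rename_rename, aeval_rename, comp_aeval_apply]
    congr 2
    funext l
    simp only [Function.comp_apply]
    have hl : σ.symm (Fin.succ l) ≠ Fin.castAdd (2 + 1) i0 := by
      rw [← e0]
      intro h
      exact Fin.succ_ne_zero l (σ.symm.injective h)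
    generalize σ.symm (Fin.succ l) = s at hl
    revert hl
    refine Fin.addCases (fun i => ?_) (fun j => ?_) s
    · intro hl
      rw [Fin.append_left, aeval_X, kl_cast]
      intro h
      exact hl (by rw [h])
    · intro _
      rw [Fin.append_right, map_add, aeval_X, map_sum, kl_nat]
      refine congrArg₂ (· + ·) rfl (Finset.sum_congr rfl fun i _ => ?_)
      rw [map_mul, aeval_X, algHom_C, algebraMap_eq]
      by_cases hi : i = i0
      · rw [hi, hU0, C_0, zero_mul, zero_mul]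
      · rw [kl_cast hi]

theorem ind_shear (hf : f.IsHomogeneous 3)
    (hind : AlgebraicIndependent ℚ
      (fun α : {α : Fin 5 →₀ ℕ // α.degree = 3} => coeff α.1 f))
    (h0 : σ (Fin.castAdd (2 + 1) i0) = 0) (h1 : σ (Fin.natAdd (2 + 1) j1) = 1)
    (hU0 : ∀ j, U i0 j = 0) (hU1 : ∀ i, U i j1 = 0)
    (hW : VanW (k := 2) (m := 2) (shear U (rename σ.symm (eq f)))) :
    AlgebraicIndependent ℚ (fun γ : {γ : Fin (2 + 1 + (2 + 1)) →₀ ℕ // pr i0 γ} =>
      coeff γ.1 (shear U (rename σ.symm (eq f)))) := by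
  classical
  set F' := shear U (rename σ.symm (eq f)) with hF'
  have hFh : (rename σ.symm (eq f)).IsHomogeneous 3 := (eq_homog hf).rename_isHomogeneous
  have hF'h : F'.IsHomogeneous 3 := shear_isHomogeneous' U hFh
  obtain ⟨H2, hH2, hH2k⟩ := struct (f := f) σ U i0 j1 h0 h1 hU0 hU1
  have hind2 := ind5 hind
  have hcard := rk_range hind2
  set f' : {γ : Fin (2 + 1 + (2 + 1)) →₀ ℕ // pr i0 γ} → ℂ := fun γ => coeff γ.1 F' with hf'
  let Tf : Finset (Fin (2 + 1) × Fin (2 + 1)) := Finset.univ.filter fun t => t.1 ≠ i0 ∧ t.2 ≠ j1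
  have hTf : Tf.card = 4 := by
    have : ∀ i0 j1 : Fin (2 + 1), (Finset.univ.filter fun t : Fin (2 + 1) × Fin (2 + 1) =>
      t.1 ≠ i0 ∧ t.2 ≠ j1).card = 4 := by decide
    exact this i0 j1
  let T : Set ℂ := (fun q : Fin (2 + 1) × Fin (2 + 1) => U q.1 q.2) '' (Tf : Set _)
  set L0 := IntermediateField.adjoin ℚ (range f' ∪ T) with hL0
  have hUm : ∀ i j, U i j ∈ L0 := by
    intro i j
    by_cases hi : i = i0
    · rw [hi, hU0]
      exact zero_mem _
    · by_cases hj : j = j1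
      · rw [hj, hU1]
        exact zero_mem _
      · refine IntermediateField.subset_adjoin ℚ _ (Or.inr ⟨(i, j), ?_, rfl⟩)
        simp only [Tf, Finset.coe_filter, Finset.mem_univ, true_and, mem_ofPred_eq]
        exact ⟨hi, hj⟩
  have hF'c : ∀ β, coeff β F' ∈ L0 := by
    intro β
    by_cases hp : pr i0 β
    · exact IntermediateField.subset_adjoin ℚ _ (Or.inl ⟨⟨β, hp⟩, rfl⟩)
    · rw [coeff_other i0 j1 hF'h hW hH2 hH2k β hp]
      split_ifs
      · exact one_mem _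
      · exact zero_mem _
  obtain ⟨F'', hF''⟩ : F' ∈ Set.range (MvPolynomial.map (algebraMap L0 ℂ)) := by
    rw [mem_range_map_iff_coeffs_subset]
    intro c hc
    obtain ⟨β, -, rfl⟩ := mem_coeffs_iff.mp hc
    exact ⟨⟨_, hF'c β⟩, rfl⟩
  have hFKc : ∀ β, coeff β (rename σ.symm (eq f)) ∈ L0 := by
    intro β
    have h3 : rename σ.symm (eq f) = map (algebraMap L0 ℂ)
        (shear (fun i j => (⟨-U i j, neg_mem (hUm i j)⟩ : L0)) F'') := by
      rw [shear_map', hF'', hF']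
      exact (shear_neg' U _).symm
    rw [h3, coeff_map]
    exact (coeff β _ : L0).2
  have hsub : range (fun γ : {γ : Fin 6 →₀ ℕ // p5 γ} => coeff γ.1 (eq f)) ⊆ (L0 : Set ℂ) := by
    rintro _ ⟨γ, rfl⟩
    have h3 := hFKc (γ.1.mapDomain σ.symm)
    rw [coeff_rename_mapDomain _ σ.symm.injective] at h3
    exact h3
  have h4 := (rk_le_of_subset_adjoin ℚ ℂ hsub).trans (rk_union_le ℚ ℂ (range f') T)
  rw [hcard] at h4
  have hTc : T.encard ≤ ((4 : ℕ) : ℕ∞) := by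
    refine (Set.encard_image_le _ _).trans ?_
    rw [Set.encard_coe_eq_coe_finsetCard, hTf]
  have h2 := rk_range_le (k := ℚ) f'
  have h3 := h4.trans (add_le_add_right hTc _)
  have hmon := card_le σ i0 h0
  have e1 : ENat.card {γ : Fin 6 →₀ ℕ // p5 γ} =
      ((Nat.card {γ : Fin 6 →₀ ℕ // p5 γ} : ℕ) : ℕ∞) := ENat.card_eq_coe_natCard _
  have e3 : ENat.card {γ : Fin (2 + 1 + (2 + 1)) →₀ ℕ // pr i0 γ} =
      ((Nat.card {γ : Fin (2 + 1 + (2 + 1)) →₀ ℕ // pr i0 γ} : ℕ) : ℕ∞) :=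
    ENat.card_eq_coe_natCard _
  rw [e3] at h2
  obtain ⟨r, hr⟩ : ∃ r : ℕ, rk ℚ ℂ (range f') = (r : ℕ∞) := by
    obtain ⟨r, hr, -⟩ := ENat.le_natCast_iff.mp h2
    exact ⟨r, hr⟩
  rw [hr] at h2
  rw [e1, hr] at h3
  have h3' : Nat.card {γ : Fin 6 →₀ ℕ // p5 γ} ≤ r + 4 := by exact_mod_cast h3
  have h5 : ENat.card {γ : Fin (2 + 1 + (2 + 1)) →₀ ℕ // pr i0 γ} ≤ rk ℚ ℂ (range f') := by
    rw [e3, hr]
    have : Nat.card {γ : Fin (2 + 1 + (2 + 1)) →₀ ℕ // pr i0 γ} ≤ r := by omega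
    exact_mod_cast this
  exact indep_of_le h5

/-- the quadric surface bundles have no rational sections -/
theorem no_iso (hf : f.IsHomogeneous 3)
    (hind : AlgebraicIndependent ℚ
      (fun α : {α : Fin 5 →₀ ℕ // α.degree = 3} => coeff α.1 f))
    (h0 : σ (Fin.castAdd (2 + 1) i0) = 0) (h1 : σ (Fin.natAdd (2 + 1) j1) = 1)
    (hU0 : ∀ j, U i0 j = 0) (hU1 : ∀ i, U i j1 = 0)
    (hW : VanW (k := 2) (m := 2) (shear U (rename σ.symm (eq f)))) :
    ¬ Iso (k := 2) (m := 2) (shear U (rename σ.symm (eq f))) := by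
  classical
  intro hiso
  have hFh : (rename σ.symm (eq f)).IsHomogeneous 3 := (eq_homog hf).rename_isHomogeneous
  have hF'h : (shear U (rename σ.symm (eq f))).IsHomogeneous 3 := shear_isHomogeneous' U hFh
  obtain ⟨H2, hH2, hH2k⟩ := struct (f := f) σ U i0 j1 h0 h1 hU0 hU1
  let π : Equiv.Perm (Fin (2 + 1)) := Equiv.swap i0 j1
  have hπ : π i0 = j1 := Equiv.swap_apply_left i0 j1
  obtain ⟨G2, hG2, hG2k⟩ := spP_struct π ℚ i0
  rw [hπ] at hG2
  obtain ⟨κ, _, _, hκ⟩ := spec_gen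
    (fun γ : {γ : Fin (2 + 1 + (2 + 1)) →₀ ℕ // pr i0 γ} =>
      coeff γ.1 (shear U (rename σ.symm (eq f))))
    (ind_shear σ U i0 j1 hf hind h0 h1 hU0 hU1 hW)
    (fun β => if h : pr i0 β then X ⟨β, h⟩ else if β = e2 i0 j1 then 1 else 0)
    hF'h hW (by
      intro β
      by_cases hp : pr i0 β
      · rw [dif_pos hp, aeval_X]
      · rw [dif_neg hp, coeff_other i0 j1 hF'h hW hH2 hH2k β hp]
        split_ifs
        · rw [map_one]
        · rw [map_zero])
    (fun γ => coeff γ.1 (spP π ℚ)) (F0 := spP π ℚ) (by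
      intro β
      by_cases hp : pr i0 β
      · rw [dif_pos hp, eval_X]
      · rw [dif_neg hp, coeff_other i0 j1 (spP_homog π ℚ) (spP_vanW π ℚ) hG2 hG2k β hp]
        split_ifs
        · rw [map_one]
        · rw [map_zero]) hiso
  rw [map_spP] at hκ
  exact aniP π κ hκ

end

end Pool.Agent.R845.Eck
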