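import Mathlib
import Pool.Agent.R845.Eck.Trd
import Pool.Agent.R845.E3.FourAll

/-! # Project Eck: the very general cubic fourfold with an Eckardt point -/

set_option autoImplicit false

namespace Pool.Agent.R845.Eck

open MvPolynomial Pool.Agent.TH314.PD IntermediateField Module Pool.Agent.Y201.C3
open Pool.Agent.R845.E3

noncomputable section

theorem mainE {f : MvPolynomial (Fin 5) ℂ} (hf : f.IsHomogeneous 3)
    (hind : AlgebraicIndependent ℚ
      (fun α : {α : Fin 5 →₀ ℕ // α.degree = 3} => coeff α.1 f))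
    (hsm : Sm (eq f)) {r : ℕ} (A : Fin r → Fin 6 → ℂ)
    (hA : ∀ a : Fin r → ℂ, eval (fun i => ∑ l, a l * A l i) (eq f) = 0)
    {M : Type} [Field M] [Algebra ℂ M] (L : IntermediateField ℂ M) (t : M)
    (ht : Transcendental L t) (hM : adjoin L {t} = ⊤) (x : Fin 6 → M) (hG : Gp (eq f) x)
    (hodd : Odd (finrank (ratioField x) M)) (s : M) (w : Fin r → M) (β γ : Fin 6 → M)
    (hβ : ∀ i, β i ∈ L) (hγ : ∀ i, γ i ∈ L)
    (hx : ∀ i, x i = s * (t * β i + γ i) + ∑ l, w l * algebraMap ℂ M (A l i)) : False := by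
  classical
  have hF : (eq f).IsHomogeneous 3 := eq_homog hf
  have hF0 : eq f ≠ 0 := ne_zero_of_smooth (m := 5) hsm
  obtain ⟨⟨v, hv, hAv, hvF⟩, -⟩ := four hF hsm A hA L t ht hM x hG hodd s w β γ hβ hγ hx
  obtain ⟨hv1, a, ha0, ha⟩ := planes hf hind v hv hvF
  have hc : ∀ l, ∃ c : Fin 3 → ℂ, A l = ∑ l', c l' • v l' := by
    intro l
    obtain ⟨c, hc⟩ := (Submodule.mem_span_range_iff_exists_fun ℂ).1 (hAv l)
    exact ⟨c, hc.symm⟩
  choose c hc using hc
  have hx' : ∀ i, x i = s * (t * β i + γ i) +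
      ∑ l', (∑ l, w l * algebraMap ℂ M (c l l')) * algebraMap ℂ M (v l' i) := by
    intro i
    rw [hx i]
    congr 1
    simp only [Finset.sum_mul]
    rw [Finset.sum_comm]
    refine Finset.sum_congr rfl fun l _ => ?_
    rw [hc l, Finset.sum_apply, map_sum, Finset.mul_sum]
    refine Finset.sum_congr rfl fun l' _ => ?_
    rw [Pi.smul_apply, smul_eq_mul, map_mul, mul_assoc]
  obtain ⟨k, m, σ, U, hW', hU, hiso⟩ := sections_iso1 spr desc hF hsm hF0 (fun i l => v l i) hvF
    L t ht hM x hG hodd s _ β γ hβ hγ hx'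
  have hkm : k + m = 4 := by
    have h1 := Fintype.card_congr σ
    rw [Fintype.card_fin, Fintype.card_fin] at h1
    omega
  have hF1h : (rename σ.symm (eq f)).IsHomogeneous 3 := hF.rename_isHomogeneous
  have hF2h := shear_hom hF1h U
  have hF2s := sm_shear (sm_rename σ.symm hsm) U
  have hle := le_of_smooth hF2h hF2s hW'
  let φ : Fin 6 → (Fin 3 → ℂ) := fun i l => v l i
  have hφ : ∀ j : Fin (m + 1), φ (σ (Fin.natAdd (k + 1) j)) =
      ∑ i, U i j • φ (σ (Fin.castAdd (m + 1) i)) := by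
    intro j
    funext l
    rw [Finset.sum_apply]
    exact hU j l
  have htop : Submodule.span ℂ (Set.range φ) = ⊤ := by
    have h1 := LinearIndependent.rank_matrix (M := Matrix.of v) hv
    rw [Fintype.card_fin] at h1
    rw [Matrix.rank_eq_finrank_span_cols] at h1
    apply Submodule.eq_top_of_finrank_eq
    rw [Module.finrank_fin_fun]
    exact h1
  have hspan : (⊤ : Submodule ℂ (Fin 3 → ℂ)) ≤
      Submodule.span ℂ (Set.range fun i : Fin (k + 1) => φ (σ (Fin.castAdd (m + 1) i))) := by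
    rw [← htop, Submodule.span_le]
    rintro _ ⟨i, rfl⟩
    obtain ⟨i', rfl⟩ := σ.surjective i
    refine Fin.addCases (fun i => ?_) (fun j => ?_) i'
    · exact Submodule.subset_span ⟨i, rfl⟩
    · rw [hφ]
      exact Submodule.sum_mem _ fun i _ => Submodule.smul_mem _ _ (Submodule.subset_span ⟨i, rfl⟩)
  have hk3 : 3 ≤ k + 1 := by
    have h1 := finrank_range_le_card (R := ℂ)
      (b := fun i : Fin (k + 1) => φ (σ (Fin.castAdd (m + 1) i)))
    rw [Set.finrank, top_le_iff.1 hspan, finrank_top, Module.finrank_fin_fun,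
      Fintype.card_fin] at h1
    exact h1
  obtain rfl : k = 2 := by omega
  obtain rfl : m = 2 := by omega
  have hli : LinearIndependent ℂ fun i : Fin (2 + 1) => φ (σ (Fin.castAdd (2 + 1) i)) := by
    apply linearIndependent_of_top_le_span_of_card_eq_finrank hspan
    rw [Fintype.card_fin, Module.finrank_fin_fun]
  have hpair : ∀ i, i ≠ 0 → ∑ l, a l * φ i l = 0 := fun i hi => ha i hi
  have hpair0 : ∑ l, a l * φ 0 l = 1 := ha0
  have hlin : ∀ j : Fin (2 + 1), ∑ l, a l * φ (σ (Fin.natAdd (2 + 1) j)) l =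
      ∑ i, U i j * ∑ l, a l * φ (σ (Fin.castAdd (2 + 1) i)) l := by
    intro j
    rw [hφ]
    simp only [Finset.sum_apply, Pi.smul_apply, smul_eq_mul, Finset.mul_sum]
    rw [Finset.sum_comm]
    refine Finset.sum_congr rfl fun i _ => Finset.sum_congr rfl fun l _ => ?_
    ring
  have hφ1 : φ 1 = 0 := by
    funext l
    exact hv1 l
  obtain ⟨i0, hi0⟩ : ∃ i0 : Fin (2 + 1), σ (Fin.castAdd (2 + 1) i0) = 0 := by
    obtain ⟨i', hi'⟩ := σ.surjective 0
    revert hi'
    refine Fin.addCases (fun i => ?_) (fun j => ?_) i'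
    · intro h
      exact ⟨i, h⟩
    · intro h
      exfalso
      have h1 := hlin j
      rw [h, hpair0, Finset.sum_eq_zero] at h1
      · exact one_ne_zero h1
      · intro i _
        rw [hpair, mul_zero]
        intro h2
        have h3 := σ.injective (h2.trans h.symm)
        exact cn_ne i j h3
  obtain ⟨j1, hj1⟩ : ∃ j1 : Fin (2 + 1), σ (Fin.natAdd (2 + 1) j1) = 1 := by
    obtain ⟨i', hi'⟩ := σ.surjective 1
    revert hi'
    refine Fin.addCases (fun i => ?_) (fun j => ?_) i'
    · intro h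
      exfalso
      have h1 := hli.ne_zero i
      apply h1
      change φ (σ (Fin.castAdd (2 + 1) i)) = 0
      rw [h, hφ1]
    · intro h
      exact ⟨j, h⟩
  have hU0 : ∀ j, U i0 j = 0 := by
    intro j
    have h1 := hlin j
    rw [hpair, Finset.sum_eq_single i0, hi0, hpair0, mul_one] at h1
    · exact h1.symm
    · intro i _ hi
      rw [hpair, mul_zero]
      intro h2
      exact hi (Fin.castAdd_injective _ _ (σ.injective (h2.trans hi0.symm)))
    · intro h
      exact absurd (Finset.mem_univ _) h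
    · intro h2
      exact cn_ne i0 j (σ.injective (h2.trans hi0.symm)).symm
  have hU1 : ∀ i, U i j1 = 0 := by
    have h1 := hφ j1
    rw [hj1, hφ1] at h1
    exact (Fintype.linearIndependent_iff.1 hli) _ h1.symm
  exact no_iso σ U i0 j1 hf hind hi0 hj1 hU0 hU1 hW' hiso

end

end Pool.Agent.R845.Eck
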